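import Mathlib

namespace Pool.Agent.Results.MP_a13529_nt.Shape

/-- The value of `β` at `p ^ a`, namely `(p ^ (a + 1) + (-1) ^ a) / (p + 1)`. -/
def b (p a : ℕ) : ℕ := ((((p : ℤ) ^ (a + 1) + (-1) ^ a) / ((p : ℤ) + 1))).toNat

/-- The alternating sum-of-divisors function. -/
def beta (n : ℕ) : ℕ := ∏ p ∈ n.primeFactors, b p (n.factorization p)

def c (p : ℕ) : ℕ → ℕ
  | 0 => 1
  | a + 1 => p ^ (a + 1) - c p a

theorem c_le (p a : ℕ) : c p a ≤ p ^ a := by
  cases a with
  | zero => simp [c]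
  | succ a => exact Nat.sub_le _ _

theorem c_rec {p : ℕ} (hp : 1 ≤ p) (a : ℕ) : c p (a + 1) + c p a = p ^ (a + 1) :=
  Nat.sub_add_cancel ((c_le p a).trans (Nat.pow_le_pow_right hp (Nat.le_succ a)))

theorem c_eq {p : ℕ} (hp : 1 ≤ p) (a : ℕ) : ((p : ℤ) + 1) * c p a = (p : ℤ) ^ (a + 1) + (-1) ^ a := by
  induction a with
  | zero => simp [c]
  | succ a ih =>
    have h : (c p (a + 1) : ℤ) + c p a = (p : ℤ) ^ (a + 1) := by exact_mod_cast c_rec hp a
    rw [pow_succ (-1 : ℤ), pow_succ (p : ℤ) (a + 1)]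
    linear_combination ((p : ℤ) + 1) * h - ih

theorem b_eq {p : ℕ} (hp : 1 ≤ p) (a : ℕ) : b p a = c p a := by
  rw [b, ← c_eq hp, Int.mul_ediv_cancel_left _ (by positivity), Int.toNat_natCast]

theorem beta_eq (n : ℕ) : beta n = n.factorization.prod c := by
  rw [beta, Finsupp.prod, Nat.support_factorization]
  exact Finset.prod_congr rfl fun p hp => b_eq (Nat.prime_of_mem_primeFactors hp).pos _

theorem beta_mul {m n : ℕ} (h : m.Coprime n) : beta (m * n) = beta m * beta n := by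
  simp only [beta_eq]
  rw [Nat.factorization_mul_of_coprime h, Finsupp.prod_add_index_of_disjoint]
  simpa using h.disjoint_primeFactors

theorem beta_pow {p : ℕ} (hp : p.Prime) (a : ℕ) : beta (p ^ a) = c p a := by
  rw [beta_eq, hp.factorization_pow, Finsupp.prod_single_index rfl]

theorem beta_le {n : ℕ} (hn : n ≠ 0) : beta n ≤ n := by
  conv_rhs => rw [← Nat.factorization_prod_pow_eq_self hn]
  rw [beta_eq]
  exact Finset.prod_le_prod' fun p _ => c_le _ _

theorem c_pos {p : ℕ} (hp : 2 ≤ p) (a : ℕ) : 0 < c p a := by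
  cases a with
  | zero => simp [c]
  | succ a =>
    have h1 := c_rec (p := p) (by omega) a
    have h2 := c_le p a
    have h3 : p ^ a < p ^ (a + 1) := Nat.pow_lt_pow_right (by omega) (Nat.lt_succ_self a)
    omega

theorem beta_pos (n : ℕ) : 0 < beta n := by
  rw [beta_eq]
  exact Finset.prod_pos fun p hp => c_pos (Nat.prime_of_mem_primeFactors hp).two_le _

theorem three {m : ℕ} (hm : m ≠ 0) (h : 3 ∣ m) : 9 * beta m ≤ 7 * m := by
  obtain ⟨e, m', hm', rfl⟩ := Nat.exists_eq_pow_mul_and_not_dvd hm 3 (by norm_num)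
  have hc : (3 ^ e).Coprime m' := Nat.Coprime.pow_left _ ((Nat.Prime.coprime_iff_not_dvd Nat.prime_three).2 hm')
  rw [beta_mul hc, beta_pow Nat.prime_three]
  have h1 : beta m' ≤ m' := beta_le (by rintro rfl; simp at hm')
  have h2 : 9 * c 3 e ≤ 7 * 3 ^ e := by
    rcases e with _ | _ | e
    · simp at h; exact absurd h hm'
    · decide
    · have h3 := c_eq (p := 3) (by norm_num) (e + 1 + 1)
      have h4 : (-1 : ℤ) ^ (e + 1 + 1) ≤ 1 := by
        rcases neg_one_pow_eq_or ℤ (e + 1 + 1) with h | h <;> rw [h] <;> norm_num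
      have h5 : (1 : ℤ) ≤ 3 ^ e := one_le_pow₀ (by norm_num)
      zify
      push_cast at h3
      rw [pow_succ (3 : ℤ), pow_succ (3 : ℤ), pow_succ (3 : ℤ)] at h3
      rw [pow_succ (3 : ℤ), pow_succ (3 : ℤ)]
      linarith
  nlinarith [Nat.mul_le_mul h2 h1]

theorem two_bound (a : ℕ) : 3 * c 2 a ≤ 2 * 2 ^ a + 1 := by
  have h3 := c_eq (p := 2) (by norm_num) a
  have h4 : (-1 : ℤ) ^ a ≤ 1 := by
    rcases neg_one_pow_eq_or ℤ a with h | h <;> rw [h] <;> norm_num
  zify
  push_cast at h3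
  rw [pow_succ (2 : ℤ)] at h3
  linarith

theorem c_par {p : ℕ} (hp : Odd p) (a : ℕ) : Odd (c p a) ↔ Even a := by
  induction a with
  | zero => simp [c]
  | succ a ih =>
    have h := c_rec hp.pos a
    have h2 : Odd (p ^ (a + 1)) := hp.pow
    rw [Nat.even_add_one, ← ih]
    simp only [Nat.odd_iff] at h2 ⊢
    omega

theorem cases4 (a : ℕ) (ha : 1 ≤ a) : a = 1 ∨ a = 2 ∨ a = 3 ∨ 16 ≤ 2 ^ a := by
  by_cases h : 4 ≤ a
  · exact Or.inr (Or.inr (Or.inr (Nat.pow_le_pow_right (n := 2) (by norm_num) h)))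
  · omega

theorem result (n : ℕ) (hn : 1 ≤ n) (h : 2 * beta (beta n) = n) :
    ∃ a v : ℕ, 1 ≤ a ∧ Odd v ∧ n = 2 ^ a * v ^ 2 := by
  obtain ⟨a, u, hu, rfl⟩ := Nat.exists_eq_two_pow_mul_odd (n := n) (by omega)
  have cop : ∀ (e : ℕ) {w : ℕ}, Odd w → (2 ^ e).Coprime w := fun e _ hw =>
    Nat.Coprime.pow_left _ (Nat.coprime_two_left.2 hw)
  have ha : 1 ≤ a := by
    rcases a with _ | a
    · rw [pow_zero, one_mul] at h
      rw [Nat.odd_iff] at hu; omega
    · omega
  obtain ⟨e, w, hw, he⟩ := Nat.exists_eq_two_pow_mul_odd (beta_pos (2 ^ a * u)).ne'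
  have he0 : e = 0 := by
    by_contra he0
    rw [he, beta_mul (cop e hw), beta_pow Nat.prime_two] at h
    rw [beta_mul (cop a hu), beta_pow Nat.prime_two] at he
    have u0 := hu.pos
    have w0 := hw.pos
    have h1 := beta_le u0.ne'
    have h2 := beta_le w0.ne'
    have b1 := two_bound a
    have b2 := two_bound e
    have x2 : 2 ≤ 2 ^ a := Nat.le_self_pow (by omega) 2
    have y2 : 2 ≤ 2 ^ e := Nat.le_self_pow he0 2
    have i1 : 2 ^ e * w ≤ c 2 a * u := he ▸ Nat.mul_le_mul_left _ h1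
    have i2 : 2 ^ a * u ≤ 2 * (c 2 e * w) := h ▸ Nat.mul_le_mul_left _ (Nat.mul_le_mul_left _ h2)
    have i3 : 2 ^ a * 2 ^ e ≤ 2 * (c 2 a * c 2 e) := by
      have := Nat.mul_le_mul i1 i2
      refine Nat.le_of_mul_le_mul_right ?_ (Nat.mul_pos u0 w0)
      nlinarith
    have c1 : c 2 1 = 1 := rfl
    have c2 : c 2 2 = 3 := rfl
    have c3 : c 2 3 = 5 := rfl
    by_cases ha2 : a = 2
    · subst ha2
      rw [c2] at he i1
      have hd : 3 ∣ w := (Nat.Coprime.pow_right e (by norm_num)).dvd_of_dvd_mul_left ⟨_, he.symm⟩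
      have h3 := three w0.ne' hd
      have : 12 * 2 ^ e * w ≤ 14 * c 2 e * w := by nlinarith [Nat.mul_le_mul_left (c 2 e) h3]
      have := Nat.le_of_mul_le_mul_right this w0
      omega
    by_cases he2 : e = 2
    · subst he2
      rw [c2] at h i2
      have hd : 3 ∣ u := (Nat.Coprime.pow_right a (by norm_num : Nat.Coprime 3 2)).dvd_of_dvd_mul_left
        ⟨2 * beta w, by rw [← h]; ring⟩
      have h3 := three u0.ne' hd
      have : 6 * 2 ^ a * u ≤ 7 * c 2 a * u := by nlinarith [Nat.mul_le_mul_left (c 2 a) h3]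
      have := Nat.le_of_mul_le_mul_right this u0
      omega
    rcases cases4 a ha with rfl | rfl | rfl | hx
    · rw [c1] at i3; omega
    · exact ha2 rfl
    · rw [c3] at i3
      rcases cases4 e (by omega) with rfl | rfl | rfl | hy
      · omega
      · exact he2 rfl
      · omega
      · omega
    rcases cases4 e (by omega) with rfl | rfl | rfl | hy
    · rw [c1] at i3; omega
    · exact he2 rfl
    · rw [c3] at i3; omega
    nlinarith [Nat.mul_le_mul b1 b2, Nat.mul_le_mul_left (2 ^ a) hy, Nat.mul_le_mul_left (2 ^ e) hx]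
  rw [he0, pow_zero, one_mul] at he
  refine ⟨a, ∏ p ∈ u.primeFactors, p ^ (u.factorization p / 2), ha, ?_, ?_⟩
  swap
  · congr 1
    conv_lhs => rw [← Nat.factorization_prod_pow_eq_self hu.pos.ne']
    rw [Finsupp.prod, Nat.support_factorization, ← Finset.prod_pow]
    refine Finset.prod_congr rfl fun p hp => ?_
    have hpo : Odd p := hu.of_dvd_nat (Nat.dvd_of_mem_primeFactors hp)
    have hd : c p (u.factorization p) ∣ w := by
      rw [← he, beta_mul (cop a hu), beta_eq u]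
      exact Dvd.dvd.mul_left (Finset.dvd_prod_of_mem _ hp) _
    have hev := (c_par hpo _).1 (hw.of_dvd_nat hd)
    rw [← pow_mul, Nat.div_mul_cancel hev.two_dvd]
  · exact Finset.prod_induction _ Odd (fun _ _ => Odd.mul) odd_one
      fun p hp => (hu.of_dvd_nat (Nat.dvd_of_mem_primeFactors hp)).pow

end Pool.Agent.Results.MP_a13529_nt.Shape
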